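import Mathlib
import Pool.Agent.H4R2.AE.Core2

set_option autoImplicit false

/-! Flat top eigenvectors of the Anderson model with Gaussian disorder in all volumes after a change
of the potential at rare sites. -/

namespace Pool.Agent.H867R3.Rare

open MeasureTheory ProbabilityTheory Pool.Agent.H4R2.AE Pool.Agent.H4R2.AE.Core

/-- clipping -/
noncomputable def clip (R v : ℝ) : ℝ := max (-R) (min R v)

theorem clip_eq {R v : ℝ} (h : |v| ≤ R) : clip R v = v := by
  rw [abs_le] at h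
  unfold clip
  rw [min_eq_right h.2, max_eq_right h.1]

theorem abs_clip {R : ℝ} (v : ℝ) (hR : 0 ≤ R) : |clip R v| ≤ R := by
  unfold clip
  rw [abs_le]
  exact ⟨le_max_left _ _, max_le (by linarith) (min_le_left _ _)⟩

theorem measurable_clip (R : ℝ) : Measurable (clip R) := by
  unfold clip
  fun_prop

theorem mgf_one (t : ℝ) : mgf (fun v : ℝ => v) (gaussianReal 0 1) t = Real.exp (t ^ 2 / 2) := by
  rw [mgf_gaussianReal (μ := 0) (v := 1) (by simp)]
  simp

theorem tail (R : ℝ) (hR : 0 ≤ R) :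
    (gaussianReal 0 1).real {v | R < |v|} ≤ 2 * Real.exp (-(R ^ 2 / 2)) := by
  have h1 := measure_ge_le_exp_mul_mgf (μ := gaussianReal 0 1) (X := fun v : ℝ => v) (t := R) R hR
    (integrable_exp_mul_gaussianReal R)
  have h2 := measure_le_le_exp_mul_mgf (μ := gaussianReal 0 1) (X := fun v : ℝ => v) (t := -R) (-R)
    (by linarith) (integrable_exp_mul_gaussianReal (-R))
  rw [mgf_one, ← Real.exp_add] at h1 h2
  have e1 : -R * R + R ^ 2 / 2 = -(R ^ 2 / 2) := by ring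
  have e2 : - -R * -R + (-R) ^ 2 / 2 = -(R ^ 2 / 2) := by ring
  rw [e1] at h1
  rw [e2] at h2
  have hsub : {v : ℝ | R < |v|} ⊆ {v : ℝ | R ≤ v} ∪ {v : ℝ | v ≤ -R} := by
    intro v hv
    simp only [Set.mem_ofPred_eq] at hv
    rcases lt_abs.1 hv with h | h
    · exact Or.inl h.le
    · exact Or.inr (by simp only [Set.mem_ofPred_eq]; linarith)
  calc (gaussianReal 0 1).real {v | R < |v|} ≤ _ := measureReal_mono hsub
    _ ≤ _ := measureReal_union_le _ _
    _ ≤ _ := by linarith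

/-- `Δ + σ V` on the torus, `(Δ f)(x) = ∑_{|y - x| = 1} f(y)`, on real functions -/
noncomputable def HT {d L : ℕ} (σ : ℝ) (V f : T d L → ℝ) (x : T d L) : ℝ :=
  ∑ i : Fin d, (f (x + Pi.single i 1) + f (x - Pi.single i 1)) + σ * V x * f x

/-- `Δ + σ V` on the torus of side `L` has a flat top eigenvector, whose energy is within `1 / L²` of
`Es`, and a spectral gap of at least `1 / (2 d L²)` below it -/
def FlatTop {d L : ℕ} [NeZero L] (η Es σ : ℝ) (V : T d L → ℝ) : Prop :=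
  ∃ (E0 : ℝ) (ψ : T d L → ℝ), |E0 - Es| ≤ 1 / (L : ℝ) ^ 2 ∧ (∀ x, 1 ≤ ψ x ∧ ψ x ≤ 1 + η) ∧
    (∀ x, HT σ V ψ x = E0 * ψ x) ∧
    ∀ f : T d L → ℝ, ∑ x, ψ x * f x = 0 →
      ∑ x, f x * HT σ V f x ≤ (E0 - 1 / (2 * (d : ℝ) * (L : ℝ) ^ 2)) * ∑ x, f x ^ 2

theorem HT_eq {d L : ℕ} [NeZero L] (σ : ℝ) (V f : T d L → ℝ) (x : T d L) :
    HT σ V f x = 2 * d * f x - Hop σ (fun y => -V y) f x := by
  unfold HT Hop
  have h : ∑ i : Fin d, (2 * f x - f (x + Pi.single i 1) - f (x - Pi.single i 1)) =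
      2 * d * f x - ∑ i : Fin d, (f (x + Pi.single i 1) + f (x - Pi.single i 1)) := by
    have h1 : ∀ i : Fin d, 2 * f x - f (x + Pi.single i 1) - f (x - Pi.single i 1) =
        2 * f x - (f (x + Pi.single i 1) + f (x - Pi.single i 1)) := fun i => by ring
    rw [Finset.sum_congr rfl (fun i _ => h1 i), Finset.sum_sub_distrib, Finset.sum_const,
      Finset.card_univ, Fintype.card_fin, nsmul_eq_mul]
    ring
  rw [h]
  ring

theorem flatTop_of {d L : ℕ} [NeZero L] {η E σ : ℝ} {V : T d L → ℝ}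
    (h : FlatE σ η (1 / (L : ℝ) ^ 2) E (fun y => -V y)) : FlatTop η (2 * d - E) σ V := by
  obtain ⟨E0, ψ, h1, h2, h3, h4⟩ := h
  refine ⟨2 * d - E0, ψ, ?_, h2, fun x => ?_, fun f hf => ?_⟩
  · have : 2 * (d : ℝ) - E0 - (2 * d - E) = -(E0 - E) := by ring
    rw [this, abs_neg]
    exact h1
  · rw [HT_eq, h3 x]
    ring
  · have h5 := h4 f hf
    have h6 : ∑ x, f x * HT σ V f x =
        2 * d * ∑ x, f x ^ 2 - ∑ x, f x * Hop σ (fun y => -V y) f x := by
      rw [Finset.mul_sum, ← Finset.sum_sub_distrib]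
      refine Finset.sum_congr rfl fun x _ => ?_
      rw [HT_eq]
      ring
    have h7 : ∑ x, f x * (Hop σ (fun y => -V y) f x - E0 * f x) =
        ∑ x, f x * Hop σ (fun y => -V y) f x - E0 * ∑ x, f x ^ 2 := by
      rw [Finset.mul_sum, ← Finset.sum_sub_distrib]
      refine Finset.sum_congr rfl fun x _ => ?_
      ring
    rw [h7] at h5
    rw [h6]
    linarith

/-- One scale. -/
theorem one_scale (d : ℕ) (hd : 5 ≤ d) (η : ℝ) (hη : 0 < η) (hη' : η ≤ 1) : ∃ c : ℝ, 0 < c ∧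
    ∀ σ R : ℝ, 0 < σ → 0 < R → σ * R ≤ c → ∀ (L : ℕ) [NeZero L],
      ∃ Es : ℝ, |Es - 2 * d| ≤ σ * R ∧ ∃ Ψ : (T d L → ℝ) → (T d L → ℝ), Measurable Ψ ∧
        (∀ (ξ : T d L → ℝ) (a : T d L), Ψ (fun x => ξ (x + a)) = fun x => Ψ ξ (x + a)) ∧
        (∀ x, (Measure.pi fun _ : T d L => gaussianReal 0 1).real {ξ | Ψ ξ x ≠ ξ x} ≤
          Real.exp (-c / Real.sqrt (σ * R) ^ d) + 2 * Real.exp (-(R ^ 2 / 2))) ∧
        ∀ ξ : T d L → ℝ, (∀ x, |Ψ ξ x| ≤ 3 * R) ∧ FlatTop η Es σ (Ψ ξ) := by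
  obtain ⟨c, hc, H⟩ := Core2.main_modi d hd η hη hη'
  refine ⟨c, hc, ?_⟩
  intro σ R hσ hR hlam L _
  set g : ℝ → ℝ := fun v => -(clip R v / R) with hg
  have hgm : Measurable g := by
    rw [hg]
    exact ((measurable_clip R).div_const R).neg
  have hg1 : ∀ v, |g v| ≤ 1 := by
    intro v
    rw [hg]
    simp only
    rw [abs_neg, abs_div, abs_of_pos hR, div_le_one hR]
    exact abs_clip v hR.le
  haveI : IsProbabilityMeasure ((gaussianReal 0 1).map g) :=
    Measure.isProbabilityMeasure_map hgm.aemeasurable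
  obtain ⟨E, hE, Φ, hΦm, hΦt, hΦp, hΦ⟩ := H ((gaussianReal 0 1).map g) (σ * R) (by positivity) hlam L
  set G : (T d L → ℝ) → (T d L → ℝ) := fun ξ x => g (ξ x) with hG
  have hGm : Measurable G := by
    rw [measurable_pi_iff]
    intro x
    exact hgm.comp (measurable_pi_apply x)
  refine ⟨2 * d - E, ?_, fun ξ x => -(R * Φ (G ξ) x), ?_, ?_, ?_, ?_⟩
  · have : 2 * (d : ℝ) - E - 2 * d = -E := by ring
    rw [this, abs_neg]
    exact hE
  · rw [measurable_pi_iff]
    intro x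
    exact (((measurable_pi_apply x).comp (hΦm.comp hGm)).const_mul R).neg
  · intro ξ a
    have h1 : G (fun x => ξ (x + a)) = fun x => G ξ (x + a) := rfl
    show (fun x => -(R * Φ (G fun x => ξ (x + a)) x)) = fun x => -(R * Φ (G ξ) (x + a))
    rw [h1, hΦt]
  · intro x
    have hmap : Measure.pi (fun _ : T d L => (gaussianReal 0 1).map g) =
        (Measure.pi fun _ : T d L => gaussianReal 0 1).map G :=
      (Measure.pi_map_pi (fun _ => hgm.aemeasurable)).symm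
    have hms : MeasurableSet {V : T d L → ℝ | Φ V x ≠ V x} := by
      have h1 : Measurable fun V : T d L → ℝ => Φ V x := (measurable_pi_apply x).comp hΦm
      exact (measurableSet_eq_fun h1 (measurable_pi_apply x)).compl
    have h1 := hΦp x
    rw [hmap, map_measureReal_apply hGm hms] at h1
    have hev : (Measure.pi fun _ : T d L => gaussianReal 0 1).real {ξ | R < |ξ x|} ≤
        2 * Real.exp (-(R ^ 2 / 2)) := by
      have hm2 : MeasurableSet {v : ℝ | R < |v|} := measurableSet_lt measurable_const measurable_id.abs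
      have h2 := (measurePreserving_eval (fun _ : T d L => gaussianReal 0 1) x).measureReal_preimage
        hm2.nullMeasurableSet
      have h3 : {ξ : T d L → ℝ | R < |ξ x|} = Function.eval x ⁻¹' {v : ℝ | R < |v|} := rfl
      rw [h3, h2]
      exact tail R hR.le
    have hsub : {ξ : T d L → ℝ | -(R * Φ (G ξ) x) ≠ ξ x} ⊆
        (G ⁻¹' {V : T d L → ℝ | Φ V x ≠ V x}) ∪ {ξ | R < |ξ x|} := by
      intro ξ hξ
      by_contra hcon
      rw [Set.mem_union, not_or] at hcon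
      obtain ⟨h2, h3⟩ := hcon
      simp only [Set.mem_preimage, Set.mem_ofPred_eq, not_not, not_lt] at h2 h3
      apply hξ
      rw [h2]
      show -(R * -(clip R (ξ x) / R)) = ξ x
      rw [clip_eq h3]
      field_simp
    calc _ ≤ _ := measureReal_mono hsub
      _ ≤ _ := measureReal_union_le _ _
      _ ≤ _ := add_le_add h1 hev
  · intro ξ
    obtain ⟨h1, h2⟩ := hΦ (G ξ) (fun x => hg1 (ξ x))
    refine ⟨fun x => ?_, ?_⟩
    · rw [abs_neg, abs_mul, abs_of_pos hR, mul_comm 3 R]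
      apply mul_le_mul_of_nonneg_left _ hR.le
      have h3 := h1 x
      have h4 : |G ξ x| ≤ 1 := hg1 (ξ x)
      calc |Φ (G ξ) x| = |(Φ (G ξ) x - G ξ x) + G ξ x| := by ring_nf
        _ ≤ |Φ (G ξ) x - G ξ x| + |G ξ x| := abs_add_le _ _
        _ ≤ 3 := by linarith
    · apply flatTop_of
      obtain ⟨E0, ψ, k1, k2, k3, k4⟩ := h2
      have e : ∀ (f : T d L → ℝ) (x : T d L), Hop σ (fun y => - -(R * Φ (G ξ) y)) f x =
          Hop (σ * R) (Φ (G ξ)) f x := by
        intro f x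
        unfold Hop
        ring
      refine ⟨E0, ψ, k1, k2, fun x => ?_, fun f hf => ?_⟩
      · rw [e]; exact k3 x
      · simp only [e]
        exact k4 f hf

/-- The main theorem. -/
theorem main (d : ℕ) (hd : 5 ≤ d) (η : ℝ) (hη : 0 < η) (hη' : η ≤ 1) : ∃ c : ℝ, 0 < c ∧
    ∀ σ : ℝ, 0 < σ → σ ≤ c → ∀ (L : ℕ) [NeZero L],
      ∃ Es : ℝ, |Es - 2 * d| ≤ σ ^ (4 / ((d : ℝ) + 4)) ∧
        ∃ Ψ : (T d L → ℝ) → (T d L → ℝ), Measurable Ψ ∧
        (∀ (ξ : T d L → ℝ) (a : T d L), Ψ (fun x => ξ (x + a)) = fun x => Ψ ξ (x + a)) ∧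
        (∀ x, (Measure.pi fun _ : T d L => gaussianReal 0 1).real {ξ | Ψ ξ x ≠ ξ x} ≤
          Real.exp (-(c * σ ^ (-(2 * (d : ℝ) / ((d : ℝ) + 4)))))) ∧
        ∀ ξ : T d L → ℝ, (∀ x, σ * |Ψ ξ x| ≤ 3 * σ ^ (4 / ((d : ℝ) + 4))) ∧
          FlatTop η Es σ (Ψ ξ) := by
  obtain ⟨c0, hc0, H⟩ := one_scale d hd η hη hη'
  set m : ℝ := min c0 (1 / 2) with hm
  have hm0 : 0 < m := by positivity
  have hmc : m ≤ c0 := min_le_left _ _
  have hm2 : m ≤ 1 / 2 := min_le_right _ _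
  set c : ℝ := min (m / 4) (c0 ^ (((d : ℝ) + 4) / 4)) with hc
  have hcpos : 0 < c := by
    rw [hc]
    exact lt_min (by positivity) (Real.rpow_pos_of_pos hc0 _)
  have hc4 : c ≤ m / 4 := min_le_left _ _
  have hd5 : (5 : ℝ) ≤ d := by exact_mod_cast hd
  have hd4 : (0 : ℝ) < (d : ℝ) + 4 := by linarith
  refine ⟨c, hcpos, ?_⟩
  intro σ hσ hσc L _
  have hσ1 : σ ≤ 1 := by linarith
  set a : ℝ := 4 / ((d : ℝ) + 4) with ha
  set b : ℝ := 2 * (d : ℝ) / ((d : ℝ) + 4) with hb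
  have ha0 : 0 < a := by positivity
  have hb1 : 1 ≤ b := by
    rw [hb, le_div_iff₀ hd4]
    linarith
  set R : ℝ := σ ^ (a - 1) with hR
  have hR0 : 0 < R := Real.rpow_pos_of_pos hσ _
  have hlam : σ * R = σ ^ a := by
    rw [hR, Real.rpow_sub hσ, Real.rpow_one]
    field_simp
  have hlamc : σ * R ≤ c0 := by
    rw [hlam]
    have h1 : σ ≤ c0 ^ (((d : ℝ) + 4) / 4) := hσc.trans (min_le_right _ _)
    calc σ ^ a ≤ (c0 ^ (((d : ℝ) + 4) / 4)) ^ a := Real.rpow_le_rpow hσ.le h1 ha0.le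
      _ = c0 := by
        rw [← Real.rpow_mul hc0.le, ha]
        have : ((d : ℝ) + 4) / 4 * (4 / ((d : ℝ) + 4)) = 1 := by field_simp
        rw [this, Real.rpow_one]
  obtain ⟨Es, hEs, Ψ, h1, h2, h3, h4⟩ := H σ R hσ hR0 hlamc L
  rw [hlam] at hEs
  refine ⟨Es, hEs, Ψ, h1, h2, ?_, ?_⟩
  · intro x
    refine (h3 x).trans ?_
    have e1 : Real.sqrt (σ * R) ^ d = σ ^ b := by
      rw [hlam, Real.sqrt_eq_rpow, ← Real.rpow_mul hσ.le, ← Real.rpow_natCast, ← Real.rpow_mul hσ.le]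
      congr 1
      rw [ha, hb]
      field_simp
      ring
    have e2 : R ^ 2 = σ ^ (-b) := by
      rw [hR, ← Real.rpow_natCast, ← Real.rpow_mul hσ.le]
      congr 1
      rw [ha, hb]
      field_simp
      ring
    rw [e1, e2]
    set X : ℝ := σ ^ (-b) with hX
    have hX0 : 0 < X := Real.rpow_pos_of_pos hσ _
    have e3 : -c0 / σ ^ b = -(c0 * X) := by
      rw [hX, Real.rpow_neg hσ.le]
      field_simp
    rw [e3]
    have hX1 : σ⁻¹ ≤ X := by
      rw [hX, Real.rpow_neg hσ.le]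
      apply inv_anti₀ (Real.rpow_pos_of_pos hσ _)
      calc σ ^ b ≤ σ ^ (1 : ℝ) := Real.rpow_le_rpow_of_exponent_ge hσ hσ1 hb1
        _ = σ := Real.rpow_one σ
    have hX2 : 4 ≤ m * X := by
      have h5 : c⁻¹ ≤ X := (inv_anti₀ hσ hσc).trans hX1
      have h6 : (m / 4)⁻¹ ≤ X := (inv_anti₀ hcpos hc4).trans h5
      have h7 : m * (m / 4)⁻¹ ≤ m * X := mul_le_mul_of_nonneg_left h6 hm0.le
      have h8 : m * (m / 4)⁻¹ = 4 := by field_simp
      linarith
    have k1 : Real.exp (-(c0 * X)) ≤ Real.exp (-(m * X)) := by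
      apply Real.exp_le_exp.2
      have := mul_le_mul_of_nonneg_right hmc hX0.le
      linarith
    have k2 : Real.exp (-(X / 2)) ≤ Real.exp (-(m * X)) := by
      apply Real.exp_le_exp.2
      have := mul_le_mul_of_nonneg_right hm2 hX0.le
      linarith
    have k3 : Real.exp (-(m * X)) * 3 ≤ Real.exp (-(c * X)) := by
      have k4 : (3 : ℝ) ≤ Real.exp ((m - c) * X) := by
        have k5 : 3 ≤ (m - c) * X := by
          have := mul_le_mul_of_nonneg_right hc4 hX0.le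
          nlinarith
        have := Real.add_one_le_exp ((m - c) * X)
        linarith
      calc Real.exp (-(m * X)) * 3 ≤ Real.exp (-(m * X)) * Real.exp ((m - c) * X) :=
            mul_le_mul_of_nonneg_left k4 (Real.exp_pos _).le
        _ = Real.exp (-(c * X)) := by
            rw [← Real.exp_add]
            congr 1
            ring
    linarith
  · intro ξ
    refine ⟨fun x => ?_, (h4 ξ).2⟩
    have h5 := mul_le_mul_of_nonneg_left ((h4 ξ).1 x) hσ.le
    calc σ * |Ψ ξ x| ≤ σ * (3 * R) := h5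
      _ = 3 * (σ * R) := by ring
      _ = 3 * σ ^ a := by rw [hlam]

end Pool.Agent.H867R3.Rare
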